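import Pool.Agent.Helper81.OP.Defs

/-!
# Module VAL: toughness inequalities
-/

set_option autoImplicit false

open SimpleGraph
open scoped Classical ENNReal

namespace Pool.Agent.Helper81.OP

theorem val_mem_fm {V : Type} {f : ℕ → V} {m : ℕ} {v : V} :
    v ∈ fm f m ↔ ∃ i < 6, m.testBit i = true ∧ f i = v := by
  unfold fm
  simp only [Finset.mem_image, Finset.mem_filter, Finset.mem_range]
  constructor
  · rintro ⟨i, ⟨h1, h2⟩, h3⟩; exact ⟨i, h1, h2, h3⟩
  · rintro ⟨i, h1, h2, h3⟩; exact ⟨i, ⟨h1, h2⟩, h3⟩

theorem val_bit_lt {m q i : ℕ} (hm : m < 2 ^ q) (h : m.testBit i = true) : i < q := by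
  by_contra hc
  have h1 : m < 2 ^ i := lt_of_lt_of_le hm (Nat.pow_le_pow_right (by norm_num) (by omega))
  rw [Nat.testBit_lt_two_pow h1] at h
  exact absurd h (by simp)

theorem val_pc (m : ℕ) : pc m = ((Finset.range 6).filter fun i => m.testBit i = true).card := by
  have h : (Finset.range 6).filter (fun i => m.testBit i = true) =
      ((List.range 6).filter fun i => m.testBit i).toFinset := by
    ext i; simp
  rw [h, List.toFinset_card_of_nodup]
  · rfl
  · exact List.Nodup.filter _ List.nodup_range

theorem val_card {V : Type} {f : ℕ → V} {q W : ℕ}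
    (hinj : ∀ i < q, ∀ j < q, f i = f j → i = j) (hW : W < 2 ^ q) : (fm f W).card = pc W := by
  rw [val_pc]
  unfold fm
  apply Finset.card_image_of_injOn
  intro i hi j hj hij
  rw [Finset.mem_coe, Finset.mem_filter] at hi hj
  exact hinj i (val_bit_lt hW hi.2) j (val_bit_lt hW hj.2) hij

theorem val_mem_un {V : Type} {Cs : List (Finset V)} {v : V} : v ∈ un Cs ↔ ∃ C ∈ Cs, v ∈ C := by
  unfold un
  induction Cs with
  | nil => simp
  | cons C Cs ih =>
    rw [List.foldr_cons, Finset.mem_union, ih]
    simp

theorem val_notfull {q W : ℕ} (hW : W < 2 ^ q) (h : ¬ W + 1 = 2 ^ q) :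
    ∃ i < q, W.testBit i = false := by
  by_contra hc
  push Not at hc
  apply h
  have : W = 2 ^ q - 1 := by
    apply Nat.eq_of_testBit_eq
    intro i
    rw [Nat.testBit_two_pow_sub_one]
    by_cases hi : i < q
    · have := hc i hi
      simp only [hi, decide_true]
      simpa using this
    · simp only [hi, decide_false]
      by_contra hh
      exact hi (val_bit_lt hW (by simpa using hh))
  omega

theorem val_sub {R W : ℕ} (h : R &&& W = R) {i : ℕ} (hi : R.testBit i = true) :
    W.testBit i = true := by
  rw [← h, Nat.testBit_and] at hi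
  simp at hi; exact hi.2

theorem val_nsub {R W : ℕ} (h : ¬ R &&& W = R) : ∃ i, R.testBit i = true ∧ W.testBit i = false := by
  by_contra hc
  push Not at hc
  apply h
  apply Nat.eq_of_testBit_eq
  intro i
  rw [Nat.testBit_and]
  by_cases hi : R.testBit i = true
  · have := hc i hi
    rw [hi]; simpa using this
  · simp [hi]

/-- adding one closed set -/
theorem val_add {V : Type} {G : SimpleGraph V} {X : Finset V} {𝒜 : Finset (Finset V)}
    (h : Fam G X 𝒜) (Z : Finset V) (hne : Z.Nonempty) (hX : Disjoint Z X)
    (hA : ∀ A ∈ 𝒜, Disjoint Z A) (hcl : ∀ x ∈ Z, ∀ y, G.Adj x y → y ∈ Z ∨ y ∈ X) :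
    Fam G X (insert Z 𝒜) ∧ (insert Z 𝒜).card = 𝒜.card + 1 := by
  constructor
  · refine ⟨?_, ?_, ?_, ?_⟩
    · intro A hA'
      rcases Finset.mem_insert.1 hA' with rfl | h'
      · exact hne
      · exact h.ne A h'
    · intro A hA' B hB' hAB
      rcases Finset.mem_insert.1 hA' with rfl | h1
      · rcases Finset.mem_insert.1 hB' with rfl | h2
        · exact absurd rfl hAB
        · exact hA B h2
      · rcases Finset.mem_insert.1 hB' with rfl | h2
        · exact (hA A h1).symm
        · exact h.dj A h1 B h2 hAB
    · intro A hA'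
      rcases Finset.mem_insert.1 hA' with rfl | h'
      · exact hX
      · exact h.off A h'
    · intro A hA'
      rcases Finset.mem_insert.1 hA' with rfl | h'
      · exact hcl
      · exact h.cl A h'
  · apply Finset.card_insert_of_notMem
    intro hZ
    have := hA Z hZ
    rw [disjoint_self, Finset.bot_eq_empty] at this
    exact hne.ne_empty this

/-- the rest of a vertex set which is closed up to `X` -/
theorem val_rest {V : Type} [Fintype V] {G : SimpleGraph V} {X B : Finset V}
    {𝒜 : Finset (Finset V)} (h : Fam G X 𝒜)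
    (hB : ∀ x ∈ B, ∀ y, G.Adj x y → y ∈ B ∨ y ∈ X)
    (hne : ∃ x ∈ B, x ∉ X ∧ ∀ A ∈ 𝒜, x ∉ A) :
    Fam G X (insert (B.filter fun x => x ∉ X ∧ ∀ A ∈ 𝒜, x ∉ A) 𝒜) ∧
      (insert (B.filter fun x => x ∉ X ∧ ∀ A ∈ 𝒜, x ∉ A) 𝒜).card = 𝒜.card + 1 := by
  apply val_add h
  · obtain ⟨x, h1, h2⟩ := hne
    exact ⟨x, Finset.mem_filter.2 ⟨h1, h2⟩⟩
  · rw [Finset.disjoint_left]
    intro x hx hx'
    exact (Finset.mem_filter.1 hx).2.1 hx'
  · intro A hA
    rw [Finset.disjoint_left]
    intro x hx hx'
    exact (Finset.mem_filter.1 hx).2.2 A hA hx'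
  · intro x hx y hxy
    rw [Finset.mem_filter] at hx
    by_cases hy : y ∈ X
    · exact Or.inr hy
    · left
      rw [Finset.mem_filter]
      refine ⟨(hB x hx.1 y hxy).resolve_right hy, hy, ?_⟩
      intro A hA hyA
      rcases h.cl A hA y hyA x hxy.symm with h1 | h1
      · exact hx.2.2 A hA h1
      · exact hx.2.1 h1

theorem val_setup {V : Type} {G : SimpleGraph V} {f : ℕ → V} {q : ℕ} {bs : List St}
    {Cs : List (Finset V)} (h1 : ST_PROF) (hq : q ≤ 6) (hc : Conf G f q bs Cs) {W : ℕ}
    (hW : W < 2 ^ q) : ∃ (X0 : Finset V) (𝒜 : Finset (Finset V)), X0 ⊆ un Cs ∧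
      Fam G (X0 ∪ fm f W) 𝒜 ∧ (∀ A ∈ 𝒜, A ⊆ un Cs) ∧ hsum bs W + 2 * X0.card ≤ 3 * 𝒜.card ∧
      (X0 ∪ fm f W).card ≤ X0.card + pc W := by
  obtain ⟨X0, 𝒜, a1, a2, a3, a4⟩ := h1 V G f q bs Cs hq hc W hW
  refine ⟨X0, 𝒜, a1, a2, a3, a4, ?_⟩
  rw [← val_card hc.inj hW]
  exact Finset.card_union_le _ _

theorem val_off {V : Type} {G : SimpleGraph V} {f : ℕ → V} {q : ℕ} {bs : List St}
    {Cs : List (Finset V)} (hq : q ≤ 6) (hc : Conf G f q bs Cs) {i : ℕ} (hi : i < q) :
    f i ∉ un Cs := by
  intro h
  obtain ⟨C, hC, h2⟩ := val_mem_un.1 h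
  have := hc.off C hC
  rw [Finset.disjoint_left] at this
  apply this h2
  rw [val_mem_fm]
  refine ⟨i, by omega, ?_, rfl⟩
  rw [Nat.testBit_two_pow_sub_one]; simpa using hi

theorem val_nin {V : Type} {G : SimpleGraph V} {f : ℕ → V} {q : ℕ} {bs : List St}
    {Cs : List (Finset V)} (hc : Conf G f q bs Cs) {i W : ℕ} (hi : i < q)
    (hW : W < 2 ^ q) (hb : W.testBit i = false) : f i ∉ fm f W := by
  intro h
  obtain ⟨j, _, h2, h3⟩ := val_mem_fm.1 h
  have := hc.inj j (val_bit_lt hW h2) i hi h3
  rw [this, hb] at h2
  exact absurd h2 (by simp)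

theorem st_VAL (h1 : ST_PROF) : ST_VAL := by
  constructor
  · intro V _ G f q R bs Cs hT hq hc hR hcl hout
    unfold validR
    rw [List.all_eq_true]
    intro W hW
    rw [List.mem_range] at hW
    obtain ⟨X0, 𝒜, a1, a2, a3, a4, a5⟩ := val_setup h1 hq hc hW
    simp only [Bool.or_eq_true, decide_eq_true_eq]
    set v := hsum bs W with hv
    -- members of the family avoid the clique
    have hAf : ∀ i < q, ∀ A ∈ 𝒜, f i ∉ A := fun i hi A hA h => val_off hq hc hi (a3 A hA h)
    have hXf : ∀ i < q, W.testBit i = false → f i ∉ X0 ∪ fm f W := by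
      intro i hi hb h
      rcases Finset.mem_union.1 h with h | h
      · exact val_off hq hc hi (a1 h)
      · exact val_nin hc hi hW hb h
    by_cases hRW : R &&& W = R
    · -- the outside
      set X := X0 ∪ fm f W with hX
      set B := fm f ((2 ^ q - 1) ^^^ R) ∪ un Cs with hB
      have hRX : ∀ y, y ∈ fm f R → y ∈ X := by
        intro y hy
        obtain ⟨i, h2, h3, h4⟩ := val_mem_fm.1 hy
        exact Finset.mem_union_right _ (val_mem_fm.2 ⟨i, h2, val_sub hRW h3, h4⟩)
      have hBF : ∀ y, y ∈ B → y ∈ fm f (2 ^ q - 1) ∪ un Cs := by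
        intro y hy
        rcases Finset.mem_union.1 hy with hy | hy
        · obtain ⟨i, h2, h3, h4⟩ := val_mem_fm.1 hy
          apply Finset.mem_union_left
          refine val_mem_fm.2 ⟨i, h2, ?_, h4⟩
          rw [Nat.testBit_xor] at h3
          by_contra hcon
          have hcon' : (2 ^ q - 1).testBit i = false := by simpa using hcon
          rw [hcon'] at h3
          simp only [Bool.false_xor] at h3
          have := val_bit_lt hR h3
          rw [Nat.testBit_two_pow_sub_one] at hcon'
          simp [this] at hcon'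
        · exact Finset.mem_union_right _ hy
      have hRF : ∀ y, y ∈ fm f R → y ∈ fm f (2 ^ q - 1) ∪ un Cs := by
        intro y hy
        obtain ⟨i, h2, h3, h4⟩ := val_mem_fm.1 hy
        apply Finset.mem_union_left
        refine val_mem_fm.2 ⟨i, h2, ?_, h4⟩
        rw [Nat.testBit_two_pow_sub_one]
        simpa using val_bit_lt hR h3
      have hFB : ∀ y, y ∈ fm f (2 ^ q - 1) ∪ un Cs → y ∈ B ∨ y ∈ fm f R := by
        intro y hy
        rcases Finset.mem_union.1 hy with hy | hy
        · obtain ⟨i, h2, h3, h4⟩ := val_mem_fm.1 hy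
          by_cases hRi : R.testBit i = true
          · right; exact val_mem_fm.2 ⟨i, h2, hRi, h4⟩
          · left
            apply Finset.mem_union_left
            refine val_mem_fm.2 ⟨i, h2, ?_, h4⟩
            rw [Nat.testBit_xor, h3]
            simp [hRi]
        · left; exact Finset.mem_union_right _ hy
      set O : Finset V := Finset.univ.filter fun w => w ∉ fm f (2 ^ q - 1) ∪ un Cs with hO
      have hXF : ∀ y, y ∈ X → y ∈ fm f (2 ^ q - 1) ∪ un Cs := by
        intro y hy
        rcases Finset.mem_union.1 hy with hy | hy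
        · exact Finset.mem_union_right _ (a1 hy)
        · obtain ⟨i, h2, h3, h4⟩ := val_mem_fm.1 hy
          apply Finset.mem_union_left
          refine val_mem_fm.2 ⟨i, h2, ?_, h4⟩
          rw [Nat.testBit_two_pow_sub_one]
          simpa using val_bit_lt hW h3
      obtain ⟨b1, b2⟩ := val_add a2 O
        (by obtain ⟨w, hw⟩ := hout; exact ⟨w, Finset.mem_filter.2 ⟨Finset.mem_univ _, hw⟩⟩)
        (by
          rw [Finset.disjoint_left]
          intro x hx hx'
          exact (Finset.mem_filter.1 hx).2 (hXF x hx'))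
        (by
          intro A hA
          rw [Finset.disjoint_left]
          intro x hx hx'
          exact (Finset.mem_filter.1 hx).2 (Finset.mem_union_right _ (a3 A hA hx')))
        (by
          intro x hx y hxy
          by_cases hy : y ∈ fm f (2 ^ q - 1) ∪ un Cs
          · rcases hFB y hy with h | h
            · exfalso
              rcases hcl y h x hxy.symm with h' | h'
              · exact (Finset.mem_filter.1 hx).2 (hBF x h')
              · exact (Finset.mem_filter.1 hx).2 (hRF x h')
            · right; exact hRX y h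
          · left; exact Finset.mem_filter.2 ⟨Finset.mem_univ _, hy⟩)
      by_cases hfull : W + 1 = 2 ^ q
      · rw [if_pos hfull, if_pos hRW]
        by_cases hv0 : v = 0
        · left; rw [if_pos hv0]
        · right
          have h2 : 1 ≤ 𝒜.card := by omega
          have := hT X (insert O 𝒜) b1 (by omega)
          omega
      · rw [if_neg hfull, if_pos hRW]
        right
        obtain ⟨i, hi, hb⟩ := val_notfull hW hfull
        have hRi : R.testBit i = false := by
          by_contra hcon
          have := val_sub hRW (show R.testBit i = true by simpa using hcon)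
          rw [hb] at this; exact absurd this (by simp)
        have hiB : f i ∈ B := by
          apply Finset.mem_union_left
          refine val_mem_fm.2 ⟨i, by omega, ?_, rfl⟩
          rw [Nat.testBit_xor, Nat.testBit_two_pow_sub_one, hRi]
          simpa using hi
        have hcl' : ∀ x ∈ B, ∀ y, G.Adj x y → y ∈ B ∨ y ∈ X := by
          intro x hx y hxy
          rcases hcl x hx y hxy with h | h
          · exact Or.inl h
          · exact Or.inr (hRX y h)
        obtain ⟨c1, c2⟩ := val_rest b1 hcl' ⟨f i, hiB, hXf i hi hb, by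
          intro A hA
          rcases Finset.mem_insert.1 hA with rfl | hA
          · intro h
            exact (Finset.mem_filter.1 h).2 (hBF _ hiB)
          · exact hAf i hi A hA⟩
        have := hT X _ c1 (by omega)
        omega
    · -- the root is not contained in `W`
      rw [if_neg hRW]
      have hfull : ¬ W + 1 = 2 ^ q := by
        intro hh
        obtain ⟨i, h2, h3⟩ := val_nsub hRW
        have : W = 2 ^ q - 1 := by omega
        rw [this, Nat.testBit_two_pow_sub_one] at h3
        simp [val_bit_lt hR h2] at h3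
      rw [if_neg hfull]
      by_cases hv0 : v = 0
      · left; rw [if_pos hv0]
      · right
        obtain ⟨i, hi, hb⟩ := val_notfull hW hfull
        obtain ⟨c1, c2⟩ := val_rest (B := Finset.univ) a2 (fun x _ y _ => Or.inl (Finset.mem_univ y))
          ⟨f i, Finset.mem_univ _, hXf i hi hb, hAf i hi⟩
        have h2 : 1 ≤ 𝒜.card := by omega
        have := hT _ _ c1 (by omega)
        omega
  · intro V _ G f q bs Cs hT hq2 hq hc hall
    unfold validU
    rw [List.all_eq_true]
    intro W hW
    rw [List.mem_range] at hW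
    obtain ⟨X0, 𝒜, a1, a2, a3, a4, a5⟩ := val_setup h1 hq hc hW
    set v := hsum bs W with hv
    have hAf : ∀ i < q, ∀ A ∈ 𝒜, f i ∉ A := fun i hi A hA h => val_off hq hc hi (a3 A hA h)
    have hXf : ∀ i < q, W.testBit i = false → f i ∉ X0 ∪ fm f W := by
      intro i hi hb h
      rcases Finset.mem_union.1 h with h | h
      · exact val_off hq hc hi (a1 h)
      · exact val_nin hc hi hW hb h
    by_cases hfull : W + 1 = 2 ^ q
    · simp only [hfull, if_true, decide_eq_true_eq]
      by_cases h2 : 2 ≤ 𝒜.card
      · have := hT _ _ a2 h2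
        omega
      · have hpc : 2 ≤ pc W := by
          rw [val_pc]
          have : ({0, 1} : Finset ℕ) ⊆ (Finset.range 6).filter fun i => W.testBit i = true := by
            intro i hi
            simp only [Finset.mem_insert, Finset.mem_singleton] at hi
            rw [Finset.mem_filter, Finset.mem_range]
            refine ⟨by omega, ?_⟩
            have : W = 2 ^ q - 1 := by omega
            rw [this, Nat.testBit_two_pow_sub_one]
            have : i < q := by omega
            simpa using this
          have h3 := Finset.card_le_card this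
          simpa using h3
        omega
    · simp only [hfull, if_false, Bool.or_eq_true, decide_eq_true_eq]
      by_cases hv0 : v = 0
      · left; exact hv0
      · right
        obtain ⟨i, hi, hb⟩ := val_notfull hW hfull
        obtain ⟨c1, c2⟩ := val_rest (B := Finset.univ) a2 (fun x _ y _ => Or.inl (Finset.mem_univ y))
          ⟨f i, Finset.mem_univ _, hXf i hi hb, hAf i hi⟩
        have h2 : 1 ≤ 𝒜.card := by omega
        have := hT _ _ c1 (by omega)
        omega

end Pool.Agent.Helper81.OP
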